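import Pool.Agent.Run7.h635.GEN.Stm

/-!
# Project GEN, piece NEGA: convergence and growth
-/

set_option autoImplicit false

open PowerSeries UpperHalfPlane
open scoped Manifold

namespace H483.GEN

open H635.GEN

noncomputable section

theorem pow_le_choose (A n : ℕ) :
    ((n : ℝ) + 1) ^ A ≤ (A.factorial : ℝ) * ((n + A).choose A : ℝ) := by
  have h := Nat.pow_sub_le_descFactorial (n + A) A
  rw [Nat.descFactorial_eq_factorial_mul_choose] at h
  have h1 : n + A + 1 - A = n + 1 := by omega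
  rw [h1] at h
  exact_mod_cast h

/-- the majorant -/
def maj (C : ℝ) (A : ℕ) (r : ℝ) (n : ℕ) : ℝ :=
  C * (A.factorial : ℝ) * (((n + A).choose A : ℝ) * r ^ n)

theorem hasSum_maj (C : ℝ) (A : ℕ) {r : ℝ} (h0 : 0 ≤ r) (h1 : r < 1) :
    HasSum (maj C A r) (C * (A.factorial : ℝ) * (1 / (1 - r) ^ (A + 1))) := by
  have h2 : ‖r‖ < 1 := by rwa [Real.norm_of_nonneg h0]
  exact (hasSum_choose_mul_geometric_of_norm_lt_one A h2).mul_left _

theorem norm_le_maj {h : ℚ⟦X⟧} {C : ℝ} {A : ℕ}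
    (hg : ∀ n : ℕ, |((coeff n h : ℚ) : ℝ)| ≤ C * ((n : ℝ) + 1) ^ A) {q : ℂ} {r : ℝ} (hq : ‖q‖ ≤ r)
    (n : ℕ) : ‖((coeff n h : ℚ) : ℂ) * q ^ n‖ ≤ maj C A r n := by
  have hC : 0 ≤ C := by
    have := (abs_nonneg _).trans (hg 0)
    simpa using this
  rw [norm_mul, norm_pow]
  have h1 : ‖((coeff n h : ℚ) : ℂ)‖ = |((coeff n h : ℚ) : ℝ)| := by
    rw [← Complex.ofReal_ratCast, Complex.norm_real, Real.norm_eq_abs]
  rw [h1]
  unfold maj
  have h2 : ‖q‖ ^ n ≤ r ^ n := pow_le_pow_left₀ (norm_nonneg _) hq n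
  have hr : 0 ≤ r := (norm_nonneg q).trans hq
  calc |((coeff n h : ℚ) : ℝ)| * ‖q‖ ^ n
      ≤ (C * ((n : ℝ) + 1) ^ A) * r ^ n :=
        mul_le_mul (hg n) h2 (by positivity) (by positivity)
    _ ≤ (C * ((A.factorial : ℝ) * ((n + A).choose A : ℝ))) * r ^ n := by
        apply mul_le_mul_of_nonneg_right _ (by positivity)
        exact mul_le_mul_of_nonneg_left (pow_le_choose A n) hC
    _ = _ := by ring

/-- the sum of the power series -/
def phi (h : ℚ⟦X⟧) (q : ℂ) : ℂ := ∑' n : ℕ, ((coeff n h : ℚ) : ℂ) * q ^ n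

theorem hasSum_phi {h : ℚ⟦X⟧} {C : ℝ} {A : ℕ}
    (hg : ∀ n : ℕ, |((coeff n h : ℚ) : ℝ)| ≤ C * ((n : ℝ) + 1) ^ A) {q : ℂ} (hq : ‖q‖ < 1) :
    HasSum (fun n : ℕ => ((coeff n h : ℚ) : ℂ) * q ^ n) (phi h q) := by
  apply Summable.hasSum
  exact Summable.of_norm_bounded (hasSum_maj C A (norm_nonneg q) hq).summable
    fun n => norm_le_maj hg le_rfl n

theorem norm_phi_le {h : ℚ⟦X⟧} {C : ℝ} {A : ℕ}
    (hg : ∀ n : ℕ, |((coeff n h : ℚ) : ℝ)| ≤ C * ((n : ℝ) + 1) ^ A) {q : ℂ} (hq : ‖q‖ < 1) :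
    ‖phi h q‖ ≤ C * (A.factorial : ℝ) * (1 / (1 - ‖q‖) ^ (A + 1)) := by
  exact tsum_of_norm_bounded (hasSum_maj C A (norm_nonneg q) hq) fun n => norm_le_maj hg le_rfl n

theorem differentiableOn_phi {h : ℚ⟦X⟧} {C : ℝ} {A : ℕ}
    (hg : ∀ n : ℕ, |((coeff n h : ℚ) : ℝ)| ≤ C * ((n : ℝ) + 1) ^ A) :
    DifferentiableOn ℂ (phi h) (Metric.ball 0 1) := by
  intro q hq
  have hq1 : ‖q‖ < 1 := mem_ball_zero_iff.1 hq
  obtain ⟨r, hr1, hr2⟩ := exists_between hq1
  have h1 : DifferentiableOn ℂ (phi h) (Metric.ball 0 r) := by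
    apply Complex.differentiableOn_tsum_of_summable_norm
      (hasSum_maj C A ((norm_nonneg q).trans hr1.le) hr2).summable
    · intro n
      exact ((differentiable_id.pow n).const_mul _).differentiableOn
    · exact Metric.isOpen_ball
    · intro n w hw
      exact norm_le_maj hg (mem_ball_zero_iff.1 hw).le n
  have h2 : q ∈ Metric.ball (0 : ℂ) r := mem_ball_zero_iff.2 hr1
  exact ((h1 q h2).differentiableAt (Metric.isOpen_ball.mem_nhds h2)).differentiableWithinAt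

theorem one_div_le (y : ℝ) (hy : 0 < y) :
    1 / (1 - Real.exp (-2 * Real.pi * y / 1)) ≤ 1 + 1 / y := by
  have hx : y ≤ 2 * Real.pi * y := by
    have := Real.pi_gt_three
    nlinarith
  have hx0 : 0 < 2 * Real.pi * y := lt_of_lt_of_le hy hx
  have h1 : Real.exp (-2 * Real.pi * y / 1) = (Real.exp (2 * Real.pi * y))⁻¹ := by
    rw [← Real.exp_neg]
    congr 1
    ring
  have h2 := Real.add_one_le_exp (2 * Real.pi * y)
  set x := 2 * Real.pi * y with hxdef
  have h3 : (Real.exp x)⁻¹ ≤ (x + 1)⁻¹ := inv_anti₀ (by linarith) h2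
  rw [h1]
  have h4 : x / (x + 1) ≤ 1 - (Real.exp x)⁻¹ := by
    have : x / (x + 1) = 1 - (x + 1)⁻¹ := by
      field_simp
      ring
    rw [this]
    linarith
  calc 1 / (1 - (Real.exp x)⁻¹) ≤ 1 / (x / (x + 1)) :=
        one_div_le_one_div_of_le (by positivity) h4
    _ = 1 + 1 / x := by field_simp
    _ ≤ 1 + 1 / y := by
        have := one_div_le_one_div_of_le hy hx
        linarith

theorem nega : S_NegA := by
  intro h ⟨C, A, hg⟩
  have hlt : ∀ τ : ℍ, ‖Function.Periodic.qParam 1 (τ : ℂ)‖ < 1 := fun τ =>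
    Function.Periodic.norm_qParam_lt_one zero_lt_one τ.im_pos
  have hC : 0 ≤ C := by
    have := (abs_nonneg _).trans (hg 0)
    simpa using this
  refine ⟨fun τ => phi h (Function.Periodic.qParam 1 (τ : ℂ)), ?_, ?_,
    C * (A.factorial : ℝ), A + 1, ?_⟩
  · intro τ
    exact hasSum_phi hg (hlt τ)
  · rw [UpperHalfPlane.mdifferentiable_iff]
    have h1 : DifferentiableOn ℂ (fun z : ℂ => phi h (Function.Periodic.qParam 1 z))
        {z : ℂ | 0 < z.im} := by
      refine (differentiableOn_phi hg).comp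
        (Function.Periodic.differentiable_qParam (h := 1)).differentiableOn ?_
      intro z hz
      exact mem_ball_zero_iff.2 (Function.Periodic.norm_qParam_lt_one zero_lt_one hz)
    refine h1.congr fun z hz => ?_
    show phi h (Function.Periodic.qParam 1 ((UpperHalfPlane.ofComplex z : ℍ) : ℂ)) = _
    rw [UpperHalfPlane.ofComplex_apply_of_im_pos hz]
  · intro τ
    refine (norm_phi_le hg (hlt τ)).trans ?_
    apply mul_le_mul_of_nonneg_left _ (by positivity)
    rw [Function.Periodic.norm_qParam, ← one_div_pow]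
    have h0 : (0 : ℝ) < 1 - Real.exp (-2 * Real.pi * (τ : ℂ).im / 1) := by
      have := hlt τ
      rw [Function.Periodic.norm_qParam] at this
      linarith
    exact pow_le_pow_left₀ (by positivity) (one_div_le τ.im τ.im_pos) _

end

end H483.GEN
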