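import Pool.Agent.Run7.h635.GEN.Stm

/-!
# Project GEN, piece NEGC: a form of negative weight with a finite orbit vanishes
-/

set_option autoImplicit false

open UpperHalfPlane Filter Topology
open scoped Manifold MatrixGroups ModularForm

namespace H483.GEN

open H635.GEN

noncomputable section

/-! ## The stabilizer -/

/-- the stabilizer of `f` -/
def stab (k : ℤ) (f : ℍ → ℂ) : Subgroup SL(2, ℤ) where
  carrier := {γ | f ∣[k] γ = f}
  one_mem' := SlashAction.slash_one k f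
  mul_mem' := by
    intro a b ha hb
    show f ∣[k] (a * b) = f
    rw [SlashAction.slash_mul, show f ∣[k] a = f from ha, show f ∣[k] b = f from hb]
  inv_mem' := by
    intro a ha
    show f ∣[k] a⁻¹ = f
    have h1 : (f ∣[k] a) ∣[k] a⁻¹ = f := by
      rw [← SlashAction.slash_mul, mul_inv_cancel, SlashAction.slash_one]
    rwa [show f ∣[k] a = f from ha] at h1

theorem mem_stab {k : ℤ} {f : ℍ → ℂ} {γ : SL(2, ℤ)} : γ ∈ stab k f ↔ f ∣[k] γ = f := Iff.rfl

theorem stab_finiteIndex {k : ℤ} {f : ℍ → ℂ}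
    (h : (Set.range fun γ : SL(2, ℤ) => f ∣[k] γ).Finite) : (stab k f).FiniteIndex := by
  haveI : Finite (Set.range fun γ : SL(2, ℤ) => f ∣[k] γ) := h.to_subtype
  have hrel : ∀ a b : SL(2, ℤ), a⁻¹ * b ∈ stab k f ↔ f ∣[k] a⁻¹ = f ∣[k] b⁻¹ := by
    intro a b
    rw [mem_stab]
    constructor
    · intro hab
      have h1 : (f ∣[k] (a⁻¹ * b)) ∣[k] b⁻¹ = f ∣[k] a⁻¹ := by
        rw [← SlashAction.slash_mul, mul_inv_cancel_right]
      rw [← h1, hab]
    · intro hab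
      rw [SlashAction.slash_mul, hab, ← SlashAction.slash_mul, inv_mul_cancel,
        SlashAction.slash_one]
  have hfin : Finite (SL(2, ℤ) ⧸ stab k f) := by
    refine Finite.of_injective (β := Set.range fun γ : SL(2, ℤ) => f ∣[k] γ)
      (fun x => Quotient.liftOn' x (fun γ => ⟨f ∣[k] γ⁻¹, γ⁻¹, rfl⟩) ?_) ?_
    · intro a b hab
      rw [QuotientGroup.leftRel_apply] at hab
      exact Subtype.ext ((hrel a b).1 hab)
    · intro x y
      induction x using Quotient.inductionOn' with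
      | h a =>
        induction y using Quotient.inductionOn' with
        | h b =>
          intro hxy
          apply Quotient.sound'
          rw [QuotientGroup.leftRel_apply]
          exact (hrel a b).2 (congrArg Subtype.val hxy)
  exact Subgroup.finiteIndex_of_finite_quotient

/-! ## Periodicity -/

theorem slash_T_zpow (k : ℤ) (g : ℍ → ℂ) (n : ℤ) (τ : ℍ) :
    (g ∣[k] (ModularGroup.T ^ n)) τ = g ((n : ℝ) +ᵥ τ) := by
  rw [ModularForm.SL_slash_apply, UpperHalfPlane.modular_T_zpow_smul]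
  have h1 : denom (ModularGroup.T ^ n : SL(2, ℤ)) (τ : ℂ) = 1 := by
    rw [ModularGroup.denom_apply, ModularGroup.coe_T_zpow]
    simp
  rw [h1, one_zpow, mul_one]

theorem exists_period {k : ℤ} {f : ℍ → ℂ}
    (h : (Set.range fun γ : SL(2, ℤ) => f ∣[k] γ).Finite) (γ : SL(2, ℤ)) :
    ∃ M : ℕ, 1 ≤ M ∧ ∀ (n : ℤ) (τ : ℍ),
      (f ∣[k] γ) (((n * M : ℤ) : ℝ) +ᵥ τ) = (f ∣[k] γ) τ := by
  haveI : Finite (Set.range fun γ : SL(2, ℤ) => f ∣[k] γ) := h.to_subtype
  obtain ⟨i, j, hij, he⟩ := Finite.exists_ne_map_eq_of_infinite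
    (fun j : ℕ => (⟨f ∣[k] (γ * ModularGroup.T ^ (j : ℤ)), _, rfl⟩ :
      Set.range fun γ : SL(2, ℤ) => f ∣[k] γ))
  have he' : f ∣[k] (γ * ModularGroup.T ^ (i : ℤ)) = f ∣[k] (γ * ModularGroup.T ^ (j : ℤ)) :=
    congrArg Subtype.val he
  have key : ∀ a b : ℕ, a < b →
      f ∣[k] (γ * ModularGroup.T ^ (a : ℤ)) = f ∣[k] (γ * ModularGroup.T ^ (b : ℤ)) →
      ∃ M : ℕ, 1 ≤ M ∧ ∀ (n : ℤ) (τ : ℍ),
        (f ∣[k] γ) (((n * M : ℤ) : ℝ) +ᵥ τ) = (f ∣[k] γ) τ := by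
    intro a b hab hT
    refine ⟨b - a, by omega, ?_⟩
    have h1 : ModularGroup.T ^ ((b - a : ℕ) : ℤ) ∈ stab k (f ∣[k] γ) := by
      rw [mem_stab]
      have h2 : (f ∣[k] (γ * ModularGroup.T ^ (b : ℤ))) ∣[k] (ModularGroup.T ^ (-(a : ℤ))) =
          (f ∣[k] γ) ∣[k] (ModularGroup.T ^ ((b - a : ℕ) : ℤ)) := by
        rw [← SlashAction.slash_mul, ← SlashAction.slash_mul, mul_assoc, ← zpow_add]
        congr 3
        push_cast [Nat.cast_sub hab.le]
        ring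
      rw [← h2, ← hT, ← SlashAction.slash_mul, mul_assoc, ← zpow_add, add_neg_cancel, zpow_zero,
        mul_one]
    intro n τ
    have h3 := (stab k (f ∣[k] γ)).zpow_mem h1 n
    rw [mem_stab, ← zpow_mul] at h3
    rw [← slash_T_zpow k (f ∣[k] γ) (n * ((b - a : ℕ) : ℤ)), mul_comm n, h3]
  rcases lt_or_gt_of_ne hij with hlt | hlt
  · exact key i j hlt he'
  · exact key j i hlt he'.symm

/-! ## Growth -/

theorem growth {N : ℕ} {f : ℍ → ℂ} {C : ℝ} {A : ℕ}
    (hf : ∀ τ : ℍ, ‖f τ‖ ≤ C * (1 + 1 / τ.im) ^ A)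
    (h : (Set.range fun γ : SL(2, ℤ) => f ∣[(-(N : ℤ))] γ).Finite) (γ : SL(2, ℤ)) :
    ∃ (C' : ℝ) (B : ℕ), 0 ≤ C' ∧ ∀ τ : ℍ, 1 ≤ τ.im →
      ‖(f ∣[(-(N : ℤ))] γ) τ‖ ≤ C' * τ.im ^ B := by
  have hC : 0 ≤ C := by
    have h1 := (norm_nonneg _).trans (hf UpperHalfPlane.I)
    have h2 : (0 : ℝ) < (1 + 1 / UpperHalfPlane.I.im) ^ A := by
      have := UpperHalfPlane.I.im_pos
      positivity
    exact nonneg_of_mul_nonneg_left h1 h2
  obtain ⟨M, hM, hper⟩ := exists_period h γ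
  set c : ℝ := ((γ 1 0 : ℤ) : ℝ)
  set e : ℝ := ((γ 1 1 : ℤ) : ℝ)
  set K : ℝ := |c| * (M + 1) + |e| with hK
  have hK0 : 0 ≤ K := by positivity
  refine ⟨C * (1 + K ^ 2) ^ A * K ^ N, 2 * A + N, by positivity, ?_⟩
  have main : ∀ τ : ℍ, 1 ≤ τ.im → |τ.re| ≤ M →
      ‖(f ∣[(-(N : ℤ))] γ) τ‖ ≤ C * (1 + K ^ 2) ^ A * K ^ N * τ.im ^ (2 * A + N) := by
    intro τ hτ hre
    have hy : 0 < τ.im := τ.im_pos
    have hden : ‖denom γ (τ : ℂ)‖ ≤ K * τ.im := by
      rw [ModularGroup.denom_apply]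
      have h1 : ‖(τ : ℂ)‖ ≤ (M + 1) * τ.im := by
        calc ‖(τ : ℂ)‖ ≤ |(τ : ℂ).re| + |(τ : ℂ).im| := Complex.norm_le_abs_re_add_abs_im _
          _ ≤ M + τ.im := by
              rw [UpperHalfPlane.coe_im, abs_of_pos hy]
              exact add_le_add_left hre _
          _ ≤ (M + 1) * τ.im := by
              have : (0 : ℝ) ≤ M := Nat.cast_nonneg M
              nlinarith
      calc ‖((γ 1 0 : ℤ) : ℂ) * (τ : ℂ) + ((γ 1 1 : ℤ) : ℂ)‖
          ≤ ‖((γ 1 0 : ℤ) : ℂ)‖ * ‖(τ : ℂ)‖ + ‖((γ 1 1 : ℤ) : ℂ)‖ := by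
            rw [← norm_mul]
            exact norm_add_le _ _
        _ = |c| * ‖(τ : ℂ)‖ + |e| := by
            rw [Complex.norm_intCast, Complex.norm_intCast]
        _ ≤ |c| * ((M + 1) * τ.im) + |e| * τ.im := by
            apply add_le_add
            · exact mul_le_mul_of_nonneg_left h1 (abs_nonneg c)
            · exact le_mul_of_one_le_right (abs_nonneg e) hτ
        _ = K * τ.im := by rw [hK]; ring
    rw [ModularForm.SL_slash_apply, norm_mul, neg_neg, zpow_natCast, norm_pow]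
    have h2 : ‖f (γ • τ)‖ ≤ C * ((1 + K ^ 2) * τ.im ^ 2) ^ A := by
      refine (hf _).trans ?_
      apply mul_le_mul_of_nonneg_left _ hC
      apply pow_le_pow_left₀ (by have := (γ • τ).im_pos; positivity)
      rw [ModularGroup.im_smul_eq_div_normSq, Complex.normSq_eq_norm_sq, one_div_div]
      have h3 : ‖denom γ (τ : ℂ)‖ ^ 2 ≤ (K * τ.im) ^ 2 := pow_le_pow_left₀ (norm_nonneg _) hden 2
      have h4 : ‖denom γ (τ : ℂ)‖ ^ 2 / τ.im ≤ ‖denom γ (τ : ℂ)‖ ^ 2 :=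
        div_le_self (by positivity) hτ
      have h5 : (1 : ℝ) ≤ τ.im ^ 2 := one_le_pow₀ hτ
      nlinarith
    calc ‖f (γ • τ)‖ * ‖denom γ (τ : ℂ)‖ ^ N
        ≤ (C * ((1 + K ^ 2) * τ.im ^ 2) ^ A) * (K * τ.im) ^ N :=
          mul_le_mul h2 (pow_le_pow_left₀ (norm_nonneg _) hden N) (by positivity) (by positivity)
      _ = C * (1 + K ^ 2) ^ A * K ^ N * τ.im ^ (2 * A + N) := by
          rw [mul_pow, mul_pow, ← pow_mul, pow_add]
          ring
  intro τ hτ
  have hM0 : (0 : ℝ) < M := by exact_mod_cast hM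
  set n : ℤ := -⌊τ.re / M⌋ with hn
  have h1 := main ((((n * M : ℤ) : ℝ)) +ᵥ τ) (by rw [UpperHalfPlane.vadd_im]; exact hτ) (by
    rw [UpperHalfPlane.vadd_re, hn]
    push_cast
    have h2 := Int.floor_le (τ.re / M)
    have h3 := Int.lt_floor_add_one (τ.re / M)
    rw [le_div_iff₀ hM0] at h2
    rw [div_lt_iff₀ hM0] at h3
    rw [abs_le]
    constructor <;> nlinarith)
  rw [hper n τ, UpperHalfPlane.vadd_im] at h1
  exact h1

/-! ## The discriminant -/

theorem disc_bound : ∃ A : ℝ, ∀ τ : ℍ, A ≤ τ.im →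
    ‖ModularForm.discriminant τ‖ ≤ 2 * Real.exp (-2 * Real.pi * τ.im) := by
  have h1 := ModularForm.tendsto_atImInfty_tprod_one_sub_eta_q_pow.norm
  rw [norm_one] at h1
  have h2 := h1.eventually (gt_mem_nhds (show (1 : ℝ) < 2 by norm_num))
  obtain ⟨A, hA⟩ := (UpperHalfPlane.atImInfty_mem _).1 h2
  refine ⟨A, fun τ hτ => ?_⟩
  rw [ModularForm.discriminant_eq_q_prod, norm_mul, Function.Periodic.norm_qParam, mul_comm]
  have h3 : ‖∏' n, (1 - ModularForm.eta_q n τ) ^ 24‖ < 2 := hA τ hτ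
  have h4 : Real.exp (-2 * Real.pi * (τ : ℂ).im / 1) = Real.exp (-2 * Real.pi * τ.im) := by
    rw [div_one, UpperHalfPlane.coe_im]
  rw [h4]
  exact mul_le_mul_of_nonneg_right h3.le (Real.exp_pos _).le

theorem disc_slash (γ : SL(2, ℤ)) :
    ModularForm.discriminant ∣[(12 : ℤ)] γ = ModularForm.discriminant :=
  SlashInvariantForm.slash_action_generators_SL2Z ModularForm.discriminant_S_invariant
    ModularForm.discriminant_T_invariant γ

theorem prod_slash (N : ℕ) (f : ℍ → ℂ) (γ : SL(2, ℤ)) :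
    (f ^ 24 * ModularForm.discriminant) ∣[(12 - 24 * (N : ℤ))] γ =
      (f ∣[(-(N : ℤ))] γ) ^ 24 * ModularForm.discriminant := by
  conv_rhs => rw [← disc_slash γ]
  ext τ
  rw [Pi.mul_apply, Pi.pow_apply, ModularForm.SL_slash_apply, ModularForm.SL_slash_apply,
    ModularForm.SL_slash_apply, Pi.mul_apply, Pi.pow_apply]
  have h0 : denom γ (τ : ℂ) ≠ 0 := denom_ne_zero γ τ
  rw [neg_neg, zpow_natCast, mul_pow, ← pow_mul]
  have h1 : denom γ (τ : ℂ) ^ (-(12 - 24 * (N : ℤ))) =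
      denom γ (τ : ℂ) ^ (N * 24) * denom γ (τ : ℂ) ^ (-12 : ℤ) := by
    rw [← zpow_natCast, ← zpow_add₀ h0]
    congr 1
    push_cast
    ring
  rw [h1]
  ring

theorem bounded_prod {g : ℍ → ℂ} {C : ℝ} {B : ℕ} (hC : 0 ≤ C)
    (hg : ∀ τ : ℍ, 1 ≤ τ.im → ‖g τ‖ ≤ C * τ.im ^ B) :
    IsBoundedAtImInfty (g ^ 24 * ModularForm.discriminant) := by
  obtain ⟨A, hA⟩ := disc_bound
  have h1 := (Real.tendsto_pow_mul_exp_neg_atTop_nhds_zero (B * 24)).eventually
    (gt_mem_nhds (show (0 : ℝ) < 1 by norm_num))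
  obtain ⟨A', hA'⟩ := eventually_atTop.1 h1
  rw [UpperHalfPlane.isBoundedAtImInfty_iff]
  refine ⟨C ^ 24 * 2, max 1 (max A A'), fun τ hτ => ?_⟩
  have hτ1 : 1 ≤ τ.im := (le_max_left _ _).trans hτ
  have hτ2 : A ≤ τ.im := ((le_max_left _ _).trans (le_max_right _ _)).trans hτ
  have hτ3 : A' ≤ τ.im := ((le_max_right _ _).trans (le_max_right _ _)).trans hτ
  have hy : 0 < τ.im := τ.im_pos
  rw [Pi.mul_apply, Pi.pow_apply, norm_mul, norm_pow]
  have h2 : Real.exp (-2 * Real.pi * τ.im) ≤ Real.exp (-τ.im) := by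
    apply Real.exp_le_exp.2
    have := Real.pi_gt_three
    nlinarith
  calc ‖g τ‖ ^ 24 * ‖ModularForm.discriminant τ‖
      ≤ (C * τ.im ^ B) ^ 24 * (2 * Real.exp (-τ.im)) :=
        mul_le_mul (pow_le_pow_left₀ (norm_nonneg _) (hg τ hτ1) 24)
          ((hA τ hτ2).trans (mul_le_mul_of_nonneg_left h2 zero_le_two)) (norm_nonneg _)
          (by positivity)
    _ = C ^ 24 * 2 * (τ.im ^ (B * 24) * Real.exp (-τ.im)) := by
        rw [mul_pow, ← pow_mul]
        ring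
    _ ≤ C ^ 24 * 2 * 1 :=
        mul_le_mul_of_nonneg_left (hA' τ.im hτ3).le (by positivity)
    _ = C ^ 24 * 2 := mul_one _

theorem mdiff_prod {f : ℍ → ℂ} (hf : MDiff f) : MDiff (f ^ 24 * ModularForm.discriminant) := by
  have h1 : MDiff ModularForm.discriminant := CuspForm.discriminant.holo'
  rw [UpperHalfPlane.mdifferentiable_iff] at hf h1 ⊢
  exact (hf.pow 24).mul h1

theorem negc : S_NegC := by
  intro N f hN hf ⟨C, A, hg⟩ hfin
  haveI := stab_finiteIndex hfin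
  let HH : ModularForm ((stab (-(N : ℤ)) f).map (Matrix.SpecialLinearGroup.mapGL ℝ))
      (12 - 24 * (N : ℤ)) :=
    { toFun := f ^ 24 * ModularForm.discriminant
      slash_action_eq' := by
        rintro _ ⟨γ, hγ, rfl⟩
        have h1 := prod_slash N f γ
        rw [show f ∣[(-(N : ℤ))] γ = f from hγ] at h1
        exact h1
      holo' := mdiff_prod hf
      bdd_at_cusps' := by
        intro c hc
        rw [Subgroup.IsArithmetic.isCusp_iff_isCusp_SL2Z] at hc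
        rw [OnePoint.isBoundedAt_iff_forall_SL2Z hc]
        intro γ _
        show IsBoundedAtImInfty ((f ^ 24 * ModularForm.discriminant) ∣[(12 - 24 * (N : ℤ))] γ)
        rw [prod_slash]
        obtain ⟨C', B, hC', hB⟩ := growth hg hfin γ
        exact bounded_prod hC' hB }
  have h0 : HH = 0 := ModularForm.isZero_of_neg_weight (by omega) HH
  ext τ
  have h1 : (f ^ 24 * ModularForm.discriminant) τ = 0 := by
    have h2 : HH τ = 0 := by rw [h0]; rfl
    exact h2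
  rw [Pi.mul_apply, Pi.pow_apply] at h1
  rcases mul_eq_zero.1 h1 with h2 | h2
  · exact pow_eq_zero_iff (by norm_num) |>.1 h2
  · exact absurd h2 (ModularForm.discriminant_ne_zero τ)

end

end H483.GEN
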